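import Pool.Agent.helper36.HK.Spec
import Pool.Agent.helper74.TG.SW7

/-! # Row ABS of block HK: sums of the coefficients of the logarithmic derivative -/

set_option autoImplicit false

open Finset
open Pool.Agent.FI

namespace Pool.Agent.HK

private theorem ABS_re (L t : ℝ) : (1 + 1 / (L : ℂ) + (t : ℂ) * Complex.I).re = 1 + 1 / L := by
  have : (1 / (L : ℂ)) = ((1 / L : ℝ) : ℂ) := by push_cast; rfl
  rw [this]
  simp

private theorem ABS_im (L t : ℝ) : (1 + 1 / (L : ℂ) + (t : ℂ) * Complex.I).im = t := by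
  have : (1 / (L : ℂ)) = ((1 / L : ℝ) : ℂ) := by push_cast; rfl
  rw [this]
  simp

/-- `lf` is at most a constant times `log log y` -/
private theorem ABS_lf (B m : ℕ) (L : ℝ) (hL : Real.exp 1 ≤ L) (M : ℝ) (hM : 1 ≤ M) (hML : M ≤ (2 * L) ^ B)
    (s : ℂ) (ht : |s.im| ≤ L ^ m) : 1 ≤ lf M s ∧ lf M s ≤ (2 * B + m + 4 : ℝ) * Real.log L := by
  have hL0 : 0 < L := (Real.exp_pos 1).trans_le hL
  have hlog : 1 ≤ Real.log L := by rw [Real.le_log_iff_exp_le hL0]; exact hL
  have h0 : 0 ≤ Real.log M := Real.log_nonneg hM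
  have h0' : 0 ≤ Real.log (2 + |s.im|) := Real.log_nonneg (by linarith [abs_nonneg s.im])
  have h1 : Real.log M ≤ 2 * B * Real.log L := by
    have h2 : Real.log M ≤ B * Real.log (2 * L) := by
      rw [← Real.log_pow]
      exact Real.log_le_log (by linarith) hML
    have h3 : Real.log (2 * L) = Real.log 2 + Real.log L := Real.log_mul (by norm_num) hL0.ne'
    have h4 : Real.log 2 ≤ 1 := by linarith [Real.log_two_lt_d9]
    have h5 : (0 : ℝ) ≤ B := Nat.cast_nonneg _
    rw [h3] at h2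
    nlinarith
  have hL2 : (2 : ℝ) ≤ L := by linarith [Real.exp_one_gt_d9]
  have hLm : (1 : ℝ) ≤ L ^ m := one_le_pow₀ (by linarith)
  have h2 : Real.log (2 + |s.im|) ≤ Real.log 3 + m * Real.log L := by
    rw [← Real.log_pow, ← Real.log_mul (by norm_num) (by positivity)]
    exact Real.log_le_log (by positivity) (by linarith)
  have h3 : Real.log 3 ≤ 2 := by
    rw [Real.log_le_iff_le_exp (by norm_num)]
    have := Real.add_one_le_exp (2 : ℝ)
    linarith
  unfold lf
  constructor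
  · linarith
  · nlinarith

theorem ABS (hLOW : LOW_stmt) (hGGB : GGB_stmt) : ABS_stmt := by
  intro C₀ A B
  obtain ⟨K, C, x₁, hC, hF⟩ := Pool.Agent.helper74.TG.fourier_sum A
  obtain ⟨C₁, E, hC₁, hG⟩ := hGGB C₀ K
  obtain ⟨c, hc, hlow⟩ := hLOW C₀
  set D : ℝ := (2 * B + (2 * A + 6 : ℕ) + 4 : ℝ) with hD
  have hD0 : 0 < D := by positivity
  set C₂ : ℝ := C₁ * ((1 + 1 / c) * D ^ 8) ^ E with hC₂
  have hC₂0 : 0 < C₂ := by positivity
  have hlim : ∀ᶠ L : ℝ in Filter.atTop, C₂ * Real.log L ^ (8 * E) ≤ L := by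
    have h1 := (isLittleO_log_rpow_rpow_atTop ((8 * E : ℕ) : ℝ) (show (0 : ℝ) < 1 by norm_num)).bound
      (show (0 : ℝ) < 1 / C₂ by positivity)
    filter_upwards [h1, Filter.eventually_ge_atTop (Real.exp 1)] with L hL hL1
    have hL0 : 0 < L := (Real.exp_pos 1).trans_le hL1
    have hlog : 0 ≤ Real.log L := by
      have : 1 ≤ Real.log L := by rw [Real.le_log_iff_exp_le hL0]; exact hL1
      linarith
    rw [Real.norm_of_nonneg (Real.rpow_nonneg hlog _), Real.norm_of_nonneg (Real.rpow_nonneg hL0.le _),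
      Real.rpow_natCast, Real.rpow_one] at hL
    calc C₂ * Real.log L ^ (8 * E) ≤ C₂ * (1 / C₂ * L) := mul_le_mul_of_nonneg_left hL hC₂0.le
      _ = L := by field_simp
  obtain ⟨L₀, hL₀⟩ := Filter.eventually_atTop.1 hlim
  have htriv : ∀ᶠ x : ℝ in Filter.atTop, 2 * Real.log x ^ (A + 1) ≤ √x := by
    have h1 := (isLittleO_log_rpow_rpow_atTop ((A + 1 : ℕ) : ℝ) (show (0 : ℝ) < 1 / 2 by norm_num)).bound
      (show (0 : ℝ) < 1 / 2 by norm_num)
    filter_upwards [h1, Filter.eventually_ge_atTop 1] with x hx hx1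
    have hlog : 0 ≤ Real.log x := Real.log_nonneg hx1
    rw [Real.norm_of_nonneg (Real.rpow_nonneg hlog _), Real.norm_of_nonneg (Real.rpow_nonneg (by linarith) _),
      Real.rpow_natCast, ← Real.sqrt_eq_rpow] at hx
    linarith
  obtain ⟨x₂, hx₂⟩ := Filter.eventually_atTop.1 htriv
  refine ⟨2 * C * 2 ^ A + 1, max (max x₂ ((max x₁ 1) ^ 2)) (Real.exp (2 * max L₀ (Real.exp 1))), by positivity, ?_⟩
  intro x hx M k₁ k₂ g₁ g₂ h₁ h₂ hDat hML u hux
  have hxx₂ : x₂ ≤ x := (le_max_left _ _).trans ((le_max_left _ _).trans hx)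
  have hxx₁ : (max x₁ 1) ^ 2 ≤ x := (le_max_right _ _).trans ((le_max_left _ _).trans hx)
  have hxe : Real.exp (2 * max L₀ (Real.exp 1)) ≤ x := (le_max_right _ _).trans hx
  have hx0 : 0 < x := (Real.exp_pos _).trans_le hxe
  have hlogx : 2 * max L₀ (Real.exp 1) ≤ Real.log x := by rw [Real.le_log_iff_exp_le hx0]; exact hxe
  have hmax1 : Real.exp 1 ≤ max L₀ (Real.exp 1) := le_max_right _ _
  have he1 : (2 : ℝ) < Real.exp 1 := by linarith [Real.exp_one_gt_d9]
  have hlx0 : 0 < Real.log x := by linarith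
  have hlx1 : 1 ≤ Real.log x := by linarith
  have hsq : √x * √x = x := Real.mul_self_sqrt hx0.le
  have hs0 : 0 < √x := Real.sqrt_pos.2 hx0
  have hsx1 : max x₁ 1 ≤ √x := Real.le_sqrt_of_sq_le hxx₁
  have hs1 : 1 ≤ √x := (le_max_right _ _).trans hsx1
  have hx1 : 1 ≤ x := by nlinarith
  obtain ⟨hk₁, hk₂, hg₁, hg₂, hh₁, hh₂, hT, hM1, hk, hNg, hNh⟩ := hDat
  have hLG : ∀ n : ℕ, ‖LG g₁ g₂ n‖ ≤ 2 * ArithmeticFunction.vonMangoldt n := by
    intro n
    unfold LG
    rw [norm_mul, Complex.norm_real, Real.norm_of_nonneg ArithmeticFunction.vonMangoldt_nonneg]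
    have h1 : ‖g₁ n + g₂ n‖ ≤ 2 := by
      have h2 := norm_add_le (g₁ n) (g₂ n)
      have h3 := hg₁.2.2.2 n
      have h4 := hg₂.2.2.2 n
      linarith
    have h5 := mul_le_mul_of_nonneg_left h1 (ArithmeticFunction.vonMangoldt_nonneg (n := n))
    linarith
  have hxA : 0 ≤ x / Real.log x ^ A := by positivity
  rcases le_or_gt (u : ℝ) (√x) with hu | hu
  · -- short sums
    have h1 : ‖∑ n ∈ Ioc 0 u, LG g₁ g₂ n‖ ≤ √x * (2 * Real.log x) := by
      refine (norm_sum_le _ _).trans ?_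
      calc ∑ n ∈ Ioc 0 u, ‖LG g₁ g₂ n‖ ≤ ∑ n ∈ Ioc 0 u, 2 * Real.log x := by
            refine Finset.sum_le_sum fun n hn => ?_
            obtain ⟨hn0, hnu⟩ := Finset.mem_Ioc.1 hn
            have h2 : Real.log n ≤ Real.log x := by
              refine Real.log_le_log (by exact_mod_cast hn0) ?_
              exact le_trans (by exact_mod_cast hnu) hux
            have h3 := ArithmeticFunction.vonMangoldt_le_log (n := n)
            have h4 := hLG n
            linarith
        _ = (u : ℝ) * (2 * Real.log x) := by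
            rw [Finset.sum_const, Nat.card_Ioc, Nat.sub_zero, nsmul_eq_mul]
        _ ≤ √x * (2 * Real.log x) := mul_le_mul_of_nonneg_right hu (by linarith)
    have h2 := hx₂ x hxx₂
    have h3 : √x * (2 * Real.log x) ≤ x / Real.log x ^ A := by
      rw [le_div_iff₀ (by positivity)]
      calc √x * (2 * Real.log x) * Real.log x ^ A = √x * (2 * Real.log x ^ (A + 1)) := by ring
        _ ≤ √x * √x := mul_le_mul_of_nonneg_left h2 hs0.le
        _ = x := hsq
    have h4 : (2 * C * 2 ^ A + 1) * x / Real.log x ^ A =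
        x / Real.log x ^ A + 2 * C * 2 ^ A * (x / Real.log x ^ A) := by ring
    rw [h4]
    have h5 : 0 ≤ 2 * C * 2 ^ A * (x / Real.log x ^ A) := by positivity
    linarith
  · -- long sums
    have hu0 : (0 : ℝ) < u := hs0.trans hu
    have hlu : Real.log x / 2 ≤ Real.log u := by
      rw [← Real.log_sqrt hx0.le]
      exact Real.log_le_log hs0 hu.le
    have hluL : max L₀ (Real.exp 1) ≤ Real.log u := by linarith
    have hLe : Real.exp 1 ≤ Real.log u := (le_max_right _ _).trans hluL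
    have hLL := hL₀ _ ((le_max_left _ _).trans hluL)
    have hL0 : 0 < Real.log (u : ℝ) := (Real.exp_pos 1).trans_le hLe
    have hL1 : 1 ≤ Real.log (u : ℝ) := by linarith
    have hloglog : 1 ≤ Real.log (Real.log (u : ℝ)) := by rw [Real.le_log_iff_exp_le hL0]; exact hLe
    have hMu : M ≤ (2 * Real.log (u : ℝ)) ^ B :=
      hML.trans (pow_le_pow_left₀ hlx0.le (by linarith) B)
    have hx₁u : x₁ ≤ (u : ℝ) := (le_max_left _ _).trans (hsx1.trans hu.le)
    have hmain := hF u hx₁u (fun n => LG g₁ g₂ n / 2) (fun n => by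
      rw [norm_div, Complex.norm_ofNat]
      have h1 := hLG n
      have h3 := ArithmeticFunction.vonMangoldt_le_log (n := n)
      rw [div_le_iff₀ (by norm_num)]
      linarith) (fun t ht => by
      set s : ℂ := 1 + 1 / (Real.log (u : ℝ) : ℂ) + t * Complex.I with hs
      have hre : s.re = 1 + 1 / Real.log (u : ℝ) := ABS_re _ _
      have him : s.im = t := ABS_im _ _
      have hs1' : 1 < s.re := by
        rw [hre]
        have : 0 < 1 / Real.log (u : ℝ) := by positivity
        linarith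
      have hs2 : s.re ≤ 2 := by
        rw [hre]
        have : 1 / Real.log (u : ℝ) ≤ 1 := by rw [div_le_one hL0]; exact hL1
        linarith
      obtain ⟨hlf1, hlf⟩ := ABS_lf B (2 * A + 6) (Real.log (u : ℝ)) hLe M hM1 hMu s (by rw [him]; exact ht)
      have hlf' : lf M s ≤ D * Real.log (Real.log (u : ℝ)) := by
        rw [hD]
        exact_mod_cast hlf
      have hlf0 : 0 < lf M s := by linarith
      set b : ℝ := min 1 (c / lf M s ^ 7) with hb
      have hb0 : 0 < b := lt_min one_pos (by positivity)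
      have hlowb := hlow M k₁ k₂ g₁ g₂ h₁ h₂ ⟨hk₁, hk₂, hg₁, hg₂, hh₁, hh₂, hT, hM1, hk, hNg, hNh⟩ s hs1' hs2
      have hGb := hG M hM1 g₁ g₂ hg₁ hg₂ hNg s hs1' hs2 b hb0 (min_le_left _ _)
        ((min_le_right _ _).trans hlowb) K le_rfl
      have h1b : lf M s / b ≤ (1 + 1 / c) * lf M s ^ 8 := by
        rw [div_le_iff₀ hb0, hb]
        rcases le_total 1 (c / lf M s ^ 7) with h | h
        · rw [min_eq_left h, mul_one]
          have h2 : lf M s ^ 1 ≤ lf M s ^ 8 := pow_le_pow_right₀ hlf1 (by norm_num)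
          rw [pow_one] at h2
          have h3 : 0 < 1 / c := by positivity
          nlinarith
        · rw [min_eq_right h]
          have h2 : (1 + 1 / c) * lf M s ^ 8 * (c / lf M s ^ 7) = (c + 1) * lf M s := by
            field_simp
          rw [h2]
          nlinarith
      have h2b : (lf M s / b) ^ E ≤ ((1 + 1 / c) * D ^ 8) ^ E * Real.log (Real.log (u : ℝ)) ^ (8 * E) := by
        calc (lf M s / b) ^ E ≤ ((1 + 1 / c) * (D * Real.log (Real.log (u : ℝ))) ^ 8) ^ E := by
              apply pow_le_pow_left₀ (by positivity)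
              refine h1b.trans ?_
              refine mul_le_mul_of_nonneg_left ?_ (by positivity)
              exact pow_le_pow_left₀ hlf0.le hlf' 8
          _ = _ := by rw [mul_pow, mul_pow, mul_pow, mul_pow, pow_mul]; ring
      have hgoal : ‖DF (LG g₁ g₂) K s‖ ≤ Real.log (u : ℝ) := by
        calc ‖DF (LG g₁ g₂) K s‖ ≤ C₁ * (lf M s / b) ^ E := hGb
          _ ≤ C₁ * (((1 + 1 / c) * D ^ 8) ^ E * Real.log (Real.log (u : ℝ)) ^ (8 * E)) :=
              mul_le_mul_of_nonneg_left h2b hC₁.le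
          _ = C₂ * Real.log (Real.log (u : ℝ)) ^ (8 * E) := by rw [hC₂]; ring
          _ ≤ Real.log (u : ℝ) := hLL
      have hhalf : LSeries (fun n => LG g₁ g₂ n / 2 * (Real.log n : ℂ) ^ K) s = (1 / 2 : ℂ) * DF (LG g₁ g₂) K s := by
        unfold DF
        rw [← LSeries_smul]
        refine LSeries_congr (fun {n} _ => ?_) s
        simp only [Pi.smul_apply, smul_eq_mul]
        ring
      rw [hhalf, norm_mul]
      have h5 : ‖(1 / 2 : ℂ)‖ = 1 / 2 := by
        rw [norm_div, norm_one, Complex.norm_ofNat]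
      rw [h5]
      have h6 := norm_nonneg (DF (LG g₁ g₂) K s)
      linarith)
    rw [Nat.floor_natCast] at hmain
    have h2 : ∑ n ∈ Ioc 0 u, LG g₁ g₂ n = 2 * ∑ n ∈ Ioc 0 u, LG g₁ g₂ n / 2 := by
      rw [Finset.mul_sum]
      refine Finset.sum_congr rfl fun n _ => ?_
      ring
    rw [h2, norm_mul, Complex.norm_ofNat]
    have h3 : C * (u : ℝ) / Real.log (u : ℝ) ^ A ≤ C * 2 ^ A * (x / Real.log x ^ A) := by
      rw [div_le_iff₀ (by positivity)]
      have h4 : Real.log x ^ A ≤ 2 ^ A * Real.log (u : ℝ) ^ A := by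
        rw [← mul_pow]
        exact pow_le_pow_left₀ hlx0.le (by linarith) A
      have h5 : 0 < Real.log x ^ A := by positivity
      calc C * (u : ℝ) ≤ C * x := mul_le_mul_of_nonneg_left hux hC.le
        _ = C * (x / Real.log x ^ A) * Real.log x ^ A := by field_simp
        _ ≤ C * (x / Real.log x ^ A) * (2 ^ A * Real.log (u : ℝ) ^ A) :=
            mul_le_mul_of_nonneg_left h4 (by positivity)
        _ = C * 2 ^ A * (x / Real.log x ^ A) * Real.log (u : ℝ) ^ A := by ring
    have h6 : (2 * C * 2 ^ A + 1) * x / Real.log x ^ A =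
        x / Real.log x ^ A + 2 * (C * 2 ^ A * (x / Real.log x ^ A)) := by ring
    rw [h6]
    linarith

end Pool.Agent.HK
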